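import Mathlib

set_option autoImplicit false

/-!
# MP_3240be_co, P32: the packing lemma, core (helper32)

A graph `H` with two vertices `y1 y2` and `k` branches at them, in every branch an independent set
`L i` of `a` vertices of small degree and a vertex `ψ i`, packs with every graph of small
maximum degree.
-/

namespace MP3240P

open Finset

/-- `π` places the vertices of `S`, no edge of `H` becomes an edge of `β`. -/
def Good {n : ℕ} (H β : SimpleGraph (Fin n)) (S : Finset (Fin n)) (π : Fin n → Fin n) : Prop :=
  Set.InjOn π (S : Set (Fin n)) ∧ ∀ u ∈ S, ∀ v ∈ S, H.Adj u v → ¬ β.Adj (π u) (π v)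

/-- One more vertex. -/
theorem step {n : ℕ} {H β : SimpleGraph (Fin n)} [DecidableRel H.Adj] [DecidableRel β.Adj]
    {S : Finset (Fin n)} {π : Fin n → Fin n} (hg : Good H β S π) {v : Fin n} (hv : v ∉ S)
    (X : Finset (Fin n)) (hX : ∀ x ∈ X, ∀ p, β.Adj (π x) p → p ∈ S.image π)
    {r d : ℕ} (hβ : ∀ x, (univ.filter (fun z => β.Adj x z)).card ≤ r)
    (hd : (S.filter (fun u => H.Adj v u ∧ u ∉ X)).card ≤ d) (hn : S.card + d * r < n) :
    ∃ p, Good H β (insert v S) (Function.update π v p) := by
  classical
  -- the forbidden places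
  set F : Finset (Fin n) := S.image π ∪
    (S.filter (fun u => H.Adj v u ∧ u ∉ X)).biUnion fun u => univ.filter (fun z => β.Adj (π u) z)
    with hF
  have hFc : F.card < (univ : Finset (Fin n)).card := by
    rw [Finset.card_univ, Fintype.card_fin]
    refine lt_of_le_of_lt ?_ hn
    refine (Finset.card_union_le _ _).trans (Nat.add_le_add Finset.card_image_le ?_)
    refine (Finset.card_biUnion_le_card_mul _ _ r fun u _ => hβ _).trans ?_
    exact Nat.mul_le_mul_right _ hd
  obtain ⟨p, _, hp⟩ := Finset.exists_mem_notMem_of_card_lt_card hFc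
  rw [hF, Finset.mem_union, not_or] at hp
  obtain ⟨hp1, hp2⟩ := hp
  have key : ∀ u ∈ S, H.Adj v u → ¬ β.Adj (π u) p := by
    intro u hu huv hadj
    by_cases hx : u ∈ X
    · exact hp1 (hX u hx p hadj)
    · apply hp2
      rw [Finset.mem_biUnion]
      exact ⟨u, Finset.mem_filter.2 ⟨hu, huv, hx⟩, Finset.mem_filter.2 ⟨Finset.mem_univ _, hadj⟩⟩
  have hne : ∀ u ∈ S, u ≠ v := fun u hu h => hv (h ▸ hu)
  refine ⟨p, ?_, ?_⟩
  · intro x hx y hy hxy
    rw [Finset.coe_insert, Set.mem_insert_iff, Finset.mem_coe] at hx hy
    rcases hx with rfl | hx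
    · rcases hy with rfl | hy
      · rfl
      · rw [Function.update_self, Function.update_of_ne (hne y hy)] at hxy
        exact absurd (Finset.mem_image.2 ⟨y, hy, hxy.symm⟩) hp1
    · rcases hy with rfl | hy
      · rw [Function.update_self, Function.update_of_ne (hne x hx)] at hxy
        exact absurd (Finset.mem_image.2 ⟨x, hx, hxy⟩) hp1
      · rw [Function.update_of_ne (hne x hx), Function.update_of_ne (hne y hy)] at hxy
        exact hg.1 hx hy hxy
  · intro x hx y hy hxy
    rw [Finset.mem_insert] at hx hy
    rcases hx with rfl | hx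
    · rcases hy with rfl | hy
      · exact absurd hxy (H.loopless.irrefl _)
      · rw [Function.update_self, Function.update_of_ne (hne y hy)]
        exact fun h => key y hy hxy h.symm
    · rcases hy with rfl | hy
      · rw [Function.update_self, Function.update_of_ne (hne x hx)]
        exact key x hx hxy.symm
      · rw [Function.update_of_ne (hne x hx), Function.update_of_ne (hne y hy)]
        exact hg.2 x hx y hy hxy

/-- The vertices outside `S` in an order, one after the other. -/
theorem greedy {n : ℕ} {H β : SimpleGraph (Fin n)} [DecidableRel H.Adj] [DecidableRel β.Adj]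
    {S : Finset (Fin n)} {π : Fin n → Fin n} (hg : Good H β S π)
    (X : Finset (Fin n)) (hXS : X ⊆ S) (hX : ∀ x ∈ X, ∀ p, β.Adj (π x) p → p ∈ S.image π)
    {r a : ℕ} (hβ : ∀ x, (univ.filter (fun z => β.Adj x z)).card ≤ r)
    (f : Fin n → ℕ) (hf : Function.Injective f)
    (hback : ∀ v, (univ.filter (fun u => H.Adj v u ∧ f u < f v)).card ≤ a)
    (L : Finset (Fin n)) (hLS : Disjoint L S) (hL : (a + 1) * r < L.card + 1)
    (hS1 : ∀ v, v ∉ S → v ∉ L → (S.filter (fun u => H.Adj v u ∧ u ∉ X)).card ≤ 1) :
    ∃ π', Good H β (univ \ L) π' ∧ ∀ x ∈ S, π' x = π x := by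
  classical
  have key : ∀ m : ℕ, ∃ π', Good H β (S ∪ (univ \ L).filter (fun v => f v < m)) π' ∧
      ∀ x ∈ S, π' x = π x := by
    intro m
    induction m with
    | zero =>
      refine ⟨π, ?_, fun _ _ => rfl⟩
      have h0 : S ∪ (univ \ L).filter (fun v => f v < 0) = S := by
        simp
      rw [h0]
      exact hg
    | succ m ih =>
      obtain ⟨π', h1, h2⟩ := ih
      by_cases hex : ∃ v, v ∉ S ∧ v ∉ L ∧ f v = m
      · obtain ⟨v, hvS, hvL, hvm⟩ := hex
        set S' := S ∪ (univ \ L).filter (fun v => f v < m) with hS'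
        have hvS' : v ∉ S' := by
          rw [hS', Finset.mem_union, Finset.mem_filter]
          rintro (h | h)
          · exact hvS h
          · omega
        have hSS' : S ⊆ S' := Finset.subset_union_left
        have hins : S ∪ (univ \ L).filter (fun v => f v < m + 1) = insert v S' := by
          ext x
          rw [hS']
          simp only [Finset.mem_union, Finset.mem_filter, Finset.mem_insert, Finset.mem_sdiff,
            Finset.mem_univ, true_and]
          constructor
          · rintro (h | ⟨h, h'⟩)
            · exact Or.inr (Or.inl h)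
            · by_cases hx : f x = m
              · exact Or.inl (hf (hx.trans hvm.symm))
              · exact Or.inr (Or.inr ⟨h, by omega⟩)
          · rintro (rfl | h | ⟨h, h'⟩)
            · exact Or.inr ⟨hvL, by omega⟩
            · exact Or.inl h
            · exact Or.inr ⟨h, by omega⟩
        have hX' : ∀ x ∈ X, ∀ p, β.Adj (π' x) p → p ∈ S'.image π' := by
          intro x hx p hp
          rw [h2 x (hXS hx)] at hp
          obtain ⟨w, hw, hwp⟩ := Finset.mem_image.1 (hX x hx p hp)
          exact Finset.mem_image.2 ⟨w, hSS' hw, by rw [h2 w hw]; exact hwp⟩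
        have hd : (S'.filter (fun u => H.Adj v u ∧ u ∉ X)).card ≤ a + 1 := by
          have h3 : S'.filter (fun u => H.Adj v u ∧ u ∉ X) ⊆
              univ.filter (fun u => H.Adj v u ∧ f u < f v) ∪
                S.filter (fun u => H.Adj v u ∧ u ∉ X) := by
            intro u hu
            rw [hS'] at hu
            simp only [Finset.mem_union, Finset.mem_filter, Finset.mem_sdiff,
              Finset.mem_univ, true_and] at hu ⊢
            rcases hu.1 with h | h
            · exact Or.inr ⟨h, hu.2⟩
            · exact Or.inl ⟨hu.2.1, by omega⟩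
          exact (Finset.card_le_card h3).trans ((Finset.card_union_le _ _).trans
            (Nat.add_le_add (hback v) (hS1 v hvS hvL)))
        have hc : S'.card + (a + 1) * r < n := by
          have h3 : Disjoint (insert v S') L := by
            rw [Finset.disjoint_insert_left]
            refine ⟨hvL, ?_⟩
            rw [hS', Finset.disjoint_union_left]
            refine ⟨hLS.symm, ?_⟩
            rw [Finset.disjoint_left]
            intro x hx
            simp only [Finset.mem_filter, Finset.mem_sdiff, Finset.mem_univ, true_and] at hx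
            exact hx.1
          have h4 := Finset.card_le_univ (insert v S' ∪ L)
          rw [Finset.card_union_of_disjoint h3, Finset.card_insert_of_notMem hvS',
            Fintype.card_fin] at h4
          omega
        obtain ⟨p, hp⟩ := step h1 hvS' X hX' hβ hd hc
        refine ⟨Function.update π' v p, by rw [hins]; exact hp, ?_⟩
        intro x hx
        have hxv : x ≠ v := fun h => hvS (by rw [← h]; exact hx)
        rw [Function.update_of_ne hxv]
        exact h2 x hx
      · refine ⟨π', ?_, h2⟩
        have hsame : S ∪ (univ \ L).filter (fun v => f v < m + 1) =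
            S ∪ (univ \ L).filter (fun v => f v < m) := by
          ext x
          simp only [Finset.mem_union, Finset.mem_filter, Finset.mem_sdiff,
            Finset.mem_univ, true_and]
          constructor
          · rintro (h | ⟨h, h'⟩)
            · exact Or.inl h
            · by_cases hx : f x = m
              · by_cases hxS : x ∈ S
                · exact Or.inl hxS
                · exact absurd ⟨x, hxS, h, hx⟩ hex
              · exact Or.inr ⟨h, by omega⟩
          · rintro (h | ⟨h, h'⟩)
            · exact Or.inl h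
            · exact Or.inr ⟨h, by omega⟩
        rw [hsame]
        exact h1
  obtain ⟨π', h1, h2⟩ := key (univ.sup f + 1)
  refine ⟨π', ?_, h2⟩
  have hall : S ∪ (univ \ L).filter (fun v => f v < univ.sup f + 1) = univ \ L := by
    ext x
    simp only [Finset.mem_union, Finset.mem_filter, Finset.mem_sdiff,
      Finset.mem_univ, true_and]
    constructor
    · rintro (h | h)
      · exact fun hx => (Finset.disjoint_left.1 hLS) hx h
      · exact h.1
    · intro h
      have := Finset.le_sup (f := f) (Finset.mem_univ x)
      exact Or.inr ⟨h, by omega⟩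
  rw [hall] at h1
  exact h1

/-- The last vertices, with Hall's theorem. -/
theorem finish {n : ℕ} {H β : SimpleGraph (Fin n)} [DecidableRel H.Adj] [DecidableRel β.Adj]
    {L : Finset (Fin n)} {π : Fin n → Fin n} (hg : Good H β (univ \ L) π)
    (X : Finset (Fin n)) (hXL : Disjoint X L)
    (hX : ∀ x ∈ X, ∀ p, β.Adj (π x) p → p ∈ (univ \ L).image π)
    {r a : ℕ} (hβ : ∀ x, (univ.filter (fun z => β.Adj x z)).card ≤ r)
    (hLc : L.card = 2 * (r * a)) (hind : ∀ u ∈ L, ∀ v ∈ L, ¬ H.Adj u v)
    (hLd : ∀ v ∈ L, (univ.filter (fun u => H.Adj v u ∧ u ∉ X)).card ≤ a)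
    (hout : ∀ v, v ∉ X → (L.filter (fun u => H.Adj v u)).card ≤ a) :
    ∃ π' : Equiv.Perm (Fin n), ∀ u v, H.Adj u v → ¬ β.Adj (π' u) (π' v) := by
  classical
  set R : Finset (Fin n) := univ \ L with hR
  set P : Finset (Fin n) := univ \ R.image π with hP
  have hPc : P.card = 2 * (r * a) := by
    have h1 : (R.image π).card = R.card := Finset.card_image_of_injOn hg.1
    have h2 : R.card = n - L.card := by
      rw [hR, Finset.card_sdiff_of_subset (Finset.subset_univ _), Finset.card_univ,
        Fintype.card_fin]
    have h3 : L.card ≤ n := by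
      have := Finset.card_le_univ L
      rwa [Fintype.card_fin] at this
    rw [hP, Finset.card_sdiff_of_subset (Finset.subset_univ _), Finset.card_univ,
      Fintype.card_fin, h1, h2]
    omega
  -- admissible places
  let t : L → Finset (Fin n) := fun l =>
    P.filter (fun p => ∀ u, H.Adj l u → u ∉ X → ¬ β.Adj (π u) p)
  have ht1 : ∀ l : L, r * a ≤ (t l).card := by
    intro l
    have h1 : P \ t l ⊆ (univ.filter (fun u => H.Adj (l : Fin n) u ∧ u ∉ X)).biUnion
        fun u => univ.filter (fun z => β.Adj (π u) z) := by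
      intro p hp
      rw [Finset.mem_sdiff, Finset.mem_filter, not_and] at hp
      have h2 := hp.2 hp.1
      push Not at h2
      obtain ⟨u, h3, h4, h5⟩ := h2
      rw [Finset.mem_biUnion]
      exact ⟨u, Finset.mem_filter.2 ⟨Finset.mem_univ _, h3, h4⟩,
        Finset.mem_filter.2 ⟨Finset.mem_univ _, h5⟩⟩
    have h2 : (P \ t l).card ≤ a * r :=
      (Finset.card_le_card h1).trans ((Finset.card_biUnion_le_card_mul _ _ r
        fun u _ => hβ _).trans (Nat.mul_le_mul_right _ (hLd l l.2)))
    have h3 : (P \ t l).card = P.card - (t l).card :=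
      Finset.card_sdiff_of_subset (Finset.filter_subset _ _)
    have h4 : (t l).card ≤ P.card := Finset.card_le_card (Finset.filter_subset _ _)
    have h5 : a * r = r * a := Nat.mul_comm _ _
    omega
  have hbad : ∀ p, ((univ : Finset L).filter (fun l : L => ¬ ∀ u, H.Adj (l : Fin n) u → u ∉ X →
      ¬ β.Adj (π u) p)).card ≤ r * a := by
    intro p
    have h1 : (((univ : Finset L).filter (fun l : L => ¬ ∀ u, H.Adj (l : Fin n) u → u ∉ X →
        ¬ β.Adj (π u) p)).map (Function.Embedding.subtype _)) ⊆
        (univ.filter (fun z => β.Adj p z)).biUnion fun z =>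
          (R.filter (fun u => π u = z ∧ u ∉ X)).biUnion fun u => L.filter (fun l => H.Adj u l) := by
      intro l hl
      rw [Finset.mem_map] at hl
      obtain ⟨⟨l', hl'⟩, h2, rfl⟩ := hl
      rw [Finset.mem_filter] at h2
      have h3 := h2.2
      push Not at h3
      obtain ⟨u, h4, h5, h6⟩ := h3
      rw [Finset.mem_biUnion]
      refine ⟨π u, Finset.mem_filter.2 ⟨Finset.mem_univ _, h6.symm⟩, ?_⟩
      rw [Finset.mem_biUnion]
      refine ⟨u, Finset.mem_filter.2 ⟨?_, rfl, h5⟩, Finset.mem_filter.2 ⟨hl', h4.symm⟩⟩
      rw [hR, Finset.mem_sdiff]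
      exact ⟨Finset.mem_univ _, fun hu => hind l' hl' u hu h4⟩
    have h2 := Finset.card_le_card h1
    rw [Finset.card_map] at h2
    refine h2.trans ((Finset.card_biUnion_le_card_mul _ _ a ?_).trans
      (Nat.mul_le_mul_right _ (hβ p)))
    intro z _
    have h3 : (R.filter (fun u => π u = z ∧ u ∉ X)).card ≤ 1 := by
      rw [Finset.card_le_one]
      intro x hx y hy
      rw [Finset.mem_filter] at hx hy
      exact hg.1 hx.1 hy.1 (hx.2.1.trans hy.2.1.symm)
    refine (Finset.card_biUnion_le_card_mul _ _ a ?_).trans
      ((Nat.mul_le_mul_right _ h3).trans (by omega))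
    intro u hu
    exact hout u (Finset.mem_filter.1 hu).2.2
  have hall : ∀ s : Finset L, s.card ≤ (s.biUnion t).card := by
    intro s
    rcases s.eq_empty_or_nonempty with rfl | ⟨l, hl⟩
    · simp
    by_cases hs : s.card ≤ r * a
    · exact hs.trans ((ht1 l).trans (Finset.card_le_card (Finset.subset_biUnion_of_mem t hl)))
    · push Not at hs
      have h1 : P ⊆ s.biUnion t := by
        intro p hp
        by_contra hcon
        have h2 : s ⊆ (univ : Finset L).filter (fun l : L => ¬ ∀ u, H.Adj (l : Fin n) u → u ∉ X →
            ¬ β.Adj (π u) p) := by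
          intro l' hl'
          rw [Finset.mem_filter]
          refine ⟨Finset.mem_univ _, fun h => hcon ?_⟩
          rw [Finset.mem_biUnion]
          exact ⟨l', hl', Finset.mem_filter.2 ⟨hp, h⟩⟩
        have h3 := (Finset.card_le_card h2).trans (hbad p)
        omega
      have h2 : s.card ≤ L.card := by
        have := Finset.card_le_univ s
        rwa [Fintype.card_coe] at this
      have h3 := Finset.card_le_card h1
      omega
  obtain ⟨g, hginj, hgt⟩ := (Finset.all_card_le_biUnion_card_iff_exists_injective t).1 hall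
  -- the permutation
  let σ : Fin n → Fin n := fun v => if h : v ∈ L then g ⟨v, h⟩ else π v
  have hσL : ∀ v (h : v ∈ L), σ v = g ⟨v, h⟩ := fun v h => dif_pos h
  have hσR : ∀ v, v ∉ L → σ v = π v := fun v h => dif_neg h
  have hgP : ∀ l : L, g l ∉ R.image π := by
    intro l h
    have h1 := (Finset.mem_filter.1 (hgt l)).1
    rw [hP, Finset.mem_sdiff] at h1
    exact h1.2 h
  have hmR : ∀ v, v ∉ L → v ∈ R := by
    intro v hv
    rw [hR, Finset.mem_sdiff]
    exact ⟨Finset.mem_univ _, hv⟩
  have hinj : Function.Injective σ := by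
    intro x y hxy
    by_cases hx : x ∈ L
    · by_cases hy : y ∈ L
      · rw [hσL x hx, hσL y hy] at hxy
        exact Subtype.ext_iff.1 (hginj hxy)
      · rw [hσL x hx, hσR y hy] at hxy
        exact absurd (Finset.mem_image.2 ⟨y, hmR y hy, hxy.symm⟩) (hgP _)
    · by_cases hy : y ∈ L
      · rw [hσR x hx, hσL y hy] at hxy
        exact absurd (Finset.mem_image.2 ⟨x, hmR x hx, hxy⟩) (hgP _)
      · rw [hσR x hx, hσR y hy] at hxy
        exact hg.1 (hmR x hx) (hmR y hy) hxy
  refine ⟨Equiv.ofBijective σ (Finite.injective_iff_bijective.1 hinj), ?_⟩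
  have hLR : ∀ u v, u ∈ L → v ∉ L → H.Adj u v → ¬ β.Adj (σ v) (σ u) := by
    intro u v hu hv huv
    rw [hσL u hu, hσR v hv]
    by_cases hx : v ∈ X
    · intro h
      exact hgP _ (hX v hx _ h)
    · exact (Finset.mem_filter.1 (hgt ⟨u, hu⟩)).2 v huv hx
  intro u v huv
  show ¬ β.Adj (σ u) (σ v)
  by_cases hu : u ∈ L
  · by_cases hv : v ∈ L
    · exact absurd huv (hind u hu v hv)
    · exact fun h => hLR u v hu hv huv h.symm
  · by_cases hv : v ∈ L
    · exact hLR v u hv hu huv.symm
    · rw [hσR u hu, hσR v hv]
      exact hg.2 u (hmR u hu) v (hmR v hv) huv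

end MP3240P
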