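import Pool.Agent.Lib.MP_3240be_co.H34.Defs

set_option autoImplicit false

/-!
# MP_3240be_co, P32: gates of blocks and degenerate orders (helper32)
-/

namespace MP3240P

open SimpleGraph
open MP3240L (Two MxTwo Cl)

section gate

variable {V : Type} {H : SimpleGraph V}

/-- Two walks which meet the block `E` only at their ends have the same end. -/
theorem gate_unique {E : Set V} (hE : MxTwo H E) {v c d : V} (hc : c ∈ E) (hd : d ∈ E)
    (p : H.Walk v c) (q : H.Walk v d) (hp : ∀ x ∈ p.support, x ∈ E → x = c)
    (hq : ∀ x ∈ q.support, x ∈ E → x = d) : c = d := by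
  classical
  by_contra hcd
  have hpath := (p.reverse.append q).bypass_isPath
  have hsup := (p.reverse.append q).support_bypass_subset_support
  have hedg := (p.reverse.append q).edges_bypass_subset_edges
  revert hpath hsup hedg
  generalize (p.reverse.append q).bypass = r
  intro hpath hsup hedg
  have h1 : ∀ x ∈ r.support, x ∈ E := fun x hx =>
    hE.2 _ (hE.1.ear hc hd hcd r hpath) Set.subset_union_left (Or.inr hx)
  cases r with
  | nil => exact hcd rfl
  | @cons _ b _ hcb r' =>
    have hb : b ∈ E := h1 b (by simp)
    have h2 : s(c, b) ∈ (p.reverse.append q).edges := hedg (by simp)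
    rw [Walk.edges_append, List.mem_append, Walk.edges_reverse, List.mem_reverse] at h2
    rcases h2 with h2 | h2
    · exact hcb.ne (hp b (Walk.snd_mem_support_of_mem_edges _ h2) hb).symm
    · have h3 := hq b (Walk.snd_mem_support_of_mem_edges _ h2) hb
      have h4 := hq c (Walk.fst_mem_support_of_mem_edges _ h2) hc
      exact hcd h4

/-- The gate map of a block: a retraction of a connected graph onto the block. -/
theorem exists_gate (hH : H.Connected) {E : Set V} (hE : MxTwo H E) :
    ∃ g : V → V, (∀ v, g v ∈ E) ∧ (∀ v ∈ E, g v = v) ∧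
      ∀ v w, H.Adj v w → g v = g w ∨ (v ∈ E ∧ w ∈ E) := by
  classical
  obtain ⟨e0, he0, -⟩ := hE.1.nt
  have h1 : ∀ v, ∃ c, c ∈ E ∧ ∃ p : H.Walk v c, ∀ x ∈ p.support, x ∈ E → x = c := by
    intro v
    obtain ⟨p⟩ := hH.preconnected v e0
    obtain ⟨c, q, _, hc, h, _⟩ := MP3240L.first_hit E p he0
    exact ⟨c, hc, q, h⟩
  choose g hg p hp using h1
  refine ⟨g, hg, ?_, ?_⟩
  · intro v hv
    exact (hp v v (p v).start_mem_support hv).symm
  · intro v w hvw
    by_cases hv : v ∈ E
    · by_cases hw : w ∈ E
      · exact Or.inr ⟨hv, hw⟩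
      · left
        have h2 : g v = v := (hp v v (p v).start_mem_support hv).symm
        rw [h2]
        symm
        refine gate_unique hE (hg w) hv (p w) (Walk.cons hvw.symm Walk.nil) (hp w) ?_
        intro x hx hxE
        rw [Walk.support_cons, Walk.support_nil, List.mem_cons, List.mem_singleton] at hx
        rcases hx with rfl | rfl
        · exact absurd hxE hw
        · rfl
    · left
      refine gate_unique hE (hg v) (hg w) (p v) (Walk.cons hvw (p w)) (hp v) ?_
      intro x hx hxE
      rw [Walk.support_cons, List.mem_cons] at hx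
      rcases hx with rfl | hx
      · exact absurd hxE hv
      · exact hp w x hx hxE

/-- A map which is constant on the edges inside a connected set is constant. -/
theorem const_of_conn {C : Set V} (hC : (H.induce C).Connected) (g : V → V)
    (hg : ∀ v ∈ C, ∀ w ∈ C, H.Adj v w → g v = g w) {v w : V} (hv : v ∈ C) (hw : w ∈ C) :
    g v = g w := by
  obtain ⟨p⟩ := hC.preconnected ⟨v, hv⟩ ⟨w, hw⟩
  have h1 : ∀ (a b : C) (p : (H.induce C).Walk a b), g a = g b := by
    intro a b p
    induction p with
    | nil => rfl
    | @cons a b c hab p ih => exact (hg a a.2 b b.2 hab).trans ih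
  exact h1 _ _ p

/-- Two different blocks have at most one common vertex. -/
theorem inter_block {E E' : Set V} (hE : MxTwo H E) (hE' : MxTwo H E') (hne : E ≠ E') {x y : V}
    (hx : x ∈ E) (hx' : x ∈ E') (hy : y ∈ E) (hy' : y ∈ E') : x = y := by
  by_contra hxy
  have h := hE.1.union hE'.1 hxy hx hx' hy hy'
  have h1 := hE.2 _ h Set.subset_union_left
  have h2 := hE'.2 _ h Set.subset_union_right
  exact hne (Set.Subset.antisymm (Set.subset_union_left.trans h2)
    (Set.subset_union_right.trans h1))

/-- The gate map of a block is constant on another block. -/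
theorem gate_const {E E' : Set V} (hE : MxTwo H E) (hE' : MxTwo H E') (hne : E ≠ E')
    {g : V → V} (hg : ∀ v w, H.Adj v w → g v = g w ∨ (v ∈ E ∧ w ∈ E)) {v w : V} (hv : v ∈ E')
    (hw : w ∈ E') : g v = g w := by
  refine const_of_conn hE'.1.conn g ?_ hv hw
  intro a ha b hb hab
  rcases hg a b hab with h | h
  · exact h
  · exact absurd (inter_block hE hE' hne h.1 ha h.2 hb) hab.ne

/-- The sides of two blocks turned away from each other are disjoint. -/
theorem gate_disj (hH : H.Connected) {E E' : Set V} {g g' : V → V} {y y' : V}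
    (hg0 : ∀ v ∈ E, g v = v) (hg0' : ∀ v ∈ E', g' v = v)
    (hg : ∀ v w, H.Adj v w → g v = g w ∨ (v ∈ E ∧ w ∈ E))
    (hg' : ∀ v w, H.Adj v w → g' v = g' w ∨ (v ∈ E' ∧ w ∈ E'))
    (hy : y ∈ E) (h1 : ∀ v ∈ E', g v = y) (h2 : ∀ v ∈ E, g' v = y') (v : V) :
    g v = y ∨ g' v = y' := by
  by_contra hcon
  push Not at hcon
  have key : ∀ (a b : V) (p : H.Walk a b), g a ≠ y → g' a ≠ y' → g b ≠ y := by
    intro a b p
    induction p with
    | nil => intro h _; exact h
    | @cons a b c hab p ih =>
      intro h3 h4
      refine ih ?_ ?_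
      · intro h5
        rcases hg a b hab with h | h
        · exact h3 (h.trans h5)
        · exact h4 (h2 a h.1)
      · intro h5
        rcases hg' a b hab with h | h
        · exact h4 (h.trans h5)
        · exact h3 (h1 a h.1)
  obtain ⟨p⟩ := hH.preconnected v y
  exact key v y p hcon.1 hcon.2 (hg0 y hy)

end gate

/-- A degenerate order with a given first vertex. -/
theorem exists_order {n a : ℕ} {H : SimpleGraph (Fin n)} [DecidableRel H.Adj]
    {κ : Fin n → Bool} (hH : H.Connected)
    (hκ : ∀ i j, H.Adj i j → κ i ≠ κ j) (ha : 1 ≤ a)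
    (hsm : ∀ S : Set (Fin n), MxTwo H S → ∃ s : Bool, {v | v ∈ S ∧ κ v = s}.ncard ≤ a)
    (x0 : Fin n) :
    ∃ f : Fin n → ℕ, Function.Injective f ∧ (∀ v, f x0 ≤ f v) ∧
      ∀ v, (Finset.univ.filter (fun u => H.Adj v u ∧ f u < f v)).card ≤ a := by
  classical
  suffices key : ∀ (k : ℕ) (A : Set (Fin n)), Cl H A → x0 ∈ A →
      (∃ f : Fin n → ℕ, Set.InjOn f A ∧ (∀ v ∈ A, f x0 ≤ f v) ∧
        ∀ v ∈ A, {u | u ∈ A ∧ H.Adj v u ∧ f u < f v}.ncard ≤ a) →
      Aᶜ.ncard = k →
      ∃ f : Fin n → ℕ, Function.Injective f ∧ (∀ v, f x0 ≤ f v) ∧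
        ∀ v, {u | H.Adj v u ∧ f u < f v}.ncard ≤ a by
    have h := key _ {x0} ⟨?_, ?_⟩ rfl ⟨fun v => v.1, ?_, ?_, ?_⟩ rfl
    · obtain ⟨f, h1, h2, h3⟩ := h
      refine ⟨f, h1, h2, fun v => ?_⟩
      rw [← Set.ncard_coe_finset, Finset.coe_filter]
      refine le_trans (Set.ncard_le_ncard ?_ (Set.toFinite _)) (h3 v)
      intro u hu
      exact hu.2
    · have : Subsingleton ({x0} : Set (Fin n)) := inferInstance
      have : Nonempty ({x0} : Set (Fin n)) := ⟨⟨x0, rfl⟩⟩
      exact ⟨Preconnected.of_subsingleton⟩
    · intro S _ x y hxy _ _ h3 h4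
      exact absurd ((show x = x0 from h3).trans (show y = x0 from h4).symm) hxy
    · exact Fin.val_injective.injOn
    · intro v hv
      rw [show v = x0 from hv]
    · intro v hv
      have h0 : {u | u ∈ ({x0} : Set (Fin n)) ∧ H.Adj v u ∧ u.1 < v.1} = ∅ := by
        rw [Set.eq_empty_iff_forall_notMem]
        rintro u ⟨h1, h2, _⟩
        rw [show v = x0 from hv, show u = x0 from h1] at h2
        exact H.loopless.irrefl _ h2
      rw [h0, Set.ncard_empty]
      exact Nat.zero_le _
  intro k
  induction k using Nat.strong_induction_on with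
  | _ k ih =>
    rintro A hA hx0 ⟨f, hf, hf0, hfb⟩ hk
    by_cases hne : A = Set.univ
    · subst hne
      refine ⟨f, fun x y h => hf (Set.mem_univ _) (Set.mem_univ _) h,
        fun v => hf0 v (Set.mem_univ _), ?_⟩
      intro v
      refine le_trans (Set.ncard_le_ncard ?_ (Set.toFinite _)) (hfb v (Set.mem_univ _))
      intro u hu
      exact ⟨Set.mem_univ _, hu⟩
    obtain ⟨y, z, B, hyA, hzA, hyz, hB, hyB, hzB, hAB⟩ := hA.next hH hne
    have hcl := hA.step hB hyA hyB hAB
    have hlt : (A ∪ B)ᶜ.ncard < k := by
      rw [← hk]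
      refine Set.ncard_lt_ncard ?_ (Set.toFinite _)
      refine ⟨Set.compl_subset_compl.2 Set.subset_union_left, ?_⟩
      intro hcon
      exact hcon hzA (Or.inr hzB)
    obtain ⟨s, hs⟩ := hsm B hB
    set M : ℕ := Finset.univ.sup f + 1 with hM
    have hfM : ∀ v, f v < M := fun v => by
      have := Finset.le_sup (f := f) (Finset.mem_univ v)
      omega
    let f' : Fin n → ℕ := fun v => if v ∈ A then f v else if κ v = s then M + v else M + n + v
    have e1 : ∀ v, v ∈ A → f' v = f v := fun v hv => if_pos hv
    have e2 : ∀ v, v ∉ A → κ v = s → f' v = M + v := fun v hv h => by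
      show (if v ∈ A then f v else if κ v = s then M + v else M + n + v) = _
      rw [if_neg hv, if_pos h]
    have e3 : ∀ v, v ∉ A → κ v ≠ s → f' v = M + n + v := fun v hv h => by
      show (if v ∈ A then f v else if κ v = s then M + v else M + n + v) = _
      rw [if_neg hv, if_neg h]
    have e4 : ∀ v, v ∉ A → M ≤ f' v := by
      intro v hv
      by_cases h : κ v = s
      · rw [e2 v hv h]; omega
      · rw [e3 v hv h]; omega
    refine ih _ hlt (A ∪ B) hcl (Or.inl hx0) ⟨f', ?_, ?_, ?_⟩ rfl
    · intro x hx w hw hxw
      by_cases h1 : x ∈ A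
      · by_cases h2 : w ∈ A
        · rw [e1 x h1, e1 w h2] at hxw
          exact hf h1 h2 hxw
        · have := e4 w h2
          rw [← hxw, e1 x h1] at this
          have := hfM x
          omega
      · by_cases h2 : w ∈ A
        · have := e4 x h1
          rw [hxw, e1 w h2] at this
          have := hfM w
          omega
        · have h3 := x.2
          have h4 := w.2
          apply Fin.ext
          by_cases h5 : κ x = s
          · by_cases h6 : κ w = s
            · rw [e2 x h1 h5, e2 w h2 h6] at hxw
              omega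
            · rw [e2 x h1 h5, e3 w h2 h6] at hxw
              omega
          · by_cases h6 : κ w = s
            · rw [e3 x h1 h5, e2 w h2 h6] at hxw
              omega
            · rw [e3 x h1 h5, e3 w h2 h6] at hxw
              omega
    · intro v _
      rw [e1 x0 hx0]
      by_cases h : v ∈ A
      · rw [e1 v h]
        exact hf0 v h
      · have h1 := e4 v h
        have h2 := hfM x0
        omega
    · intro v hv
      by_cases h : v ∈ A
      · refine le_trans (Set.ncard_le_ncard ?_ (Set.toFinite _)) (hfb v h)
        rintro u ⟨hu1, hu2, hu3⟩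
        rw [e1 v h] at hu3
        have huA : u ∈ A := by
          by_contra hcon
          have h1 := e4 u hcon
          have h2 := hfM v
          omega
        rw [e1 u huA] at hu3
        exact ⟨huA, hu2, hu3⟩
      · have hvB : v ∈ B := hv.resolve_left h
        -- neighbours in A
        have hnb : ∀ u ∈ A, H.Adj v u → u = y := by
          intro u hu hvu
          have h2 := MP3240L.sep hA.conn hB hyA hyB hAB hvB hu (Walk.cons hvu Walk.nil)
          rw [Walk.support_cons, Walk.support_nil, List.mem_cons, List.mem_singleton] at h2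
          rcases h2 with h2 | h2
          · exact absurd (by rw [← h2]; exact hyA) h
          · exact h2.symm
        by_cases hvs : κ v = s
        · refine le_trans (Set.ncard_le_ncard (t := {y}) ?_ (Set.toFinite _))
            (by rw [Set.ncard_singleton]; exact ha)
          rintro u ⟨hu1, hu2, hu3⟩
          show u = y
          by_cases huA : u ∈ A
          · exact hnb u huA hu2
          · have h5 : κ u ≠ s := fun h' => hκ v u hu2 (hvs.trans h'.symm)
            rw [e2 v h hvs, e3 u huA h5] at hu3
            have := v.2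
            omega
        · refine le_trans (Set.ncard_le_ncard ?_ (Set.toFinite _)) hs
          rintro u ⟨hu1, hu2, hu3⟩
          have h5 : κ u = s := by
            have := hκ v u hu2
            revert this hvs
            cases κ u <;> cases κ v <;> cases s <;> simp
          rcases hu1 with h6 | h6
          · have h7 := hnb u h6 hu2
            exact ⟨by rw [h7]; exact hyB, h5⟩
          · exact ⟨h6, h5⟩

end MP3240P
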