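import Pool.Agent.Lib.MP_3240be_co.P32.Core

set_option autoImplicit false

/-!
# MP_3240be_co, P32: the packing lemma for graphs with branches (helper32)
-/

namespace MP3240P

open Finset

/-- The places of `y1 y2` and of the vertices `Ψ`. -/
theorem start {n r : ℕ} {H β : SimpleGraph (Fin n)} [DecidableRel β.Adj] {y1 y2 : Fin n}
    (hy : y1 ≠ y2) (Ψ : Finset (Fin n)) (h1 : y1 ∉ Ψ) (h2 : y2 ∉ Ψ) (hc : Ψ.card = 2 * r)
    (hi : ∀ u ∈ Ψ, ∀ v ∈ Ψ, ¬ H.Adj u v) (hi1 : ∀ u ∈ Ψ, ¬ H.Adj u y1)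
    (hi2 : ∀ u ∈ Ψ, ¬ H.Adj u y2)
    (hβ : ∀ x, (univ.filter (fun z => β.Adj x z)).card ≤ r) :
    ∃ π : Fin n → Fin n, Good H β (insert y1 (insert y2 Ψ)) π ∧
      ∀ x ∈ ({y1, y2} : Finset (Fin n)), ∀ p, β.Adj (π x) p →
        p ∈ (insert y1 (insert y2 Ψ)).image π := by
  classical
  have hn : 2 * r + 2 ≤ n := by
    have h3 := Finset.card_le_univ (insert y1 (insert y2 Ψ))
    rw [Finset.card_insert_of_notMem (by
      rw [Finset.mem_insert, not_or]; exact ⟨hy, h1⟩), Finset.card_insert_of_notMem h2, hc,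
      Fintype.card_fin] at h3
    omega
  -- the places
  set p1 : Fin n := y1 with hp1
  obtain ⟨p2, hp2⟩ : ∃ p2, p2 ∉ insert p1 (univ.filter (fun z => β.Adj p1 z)) := by
    by_contra hcon
    push Not at hcon
    have h3 : (univ : Finset (Fin n)) ⊆ insert p1 (univ.filter (fun z => β.Adj p1 z)) :=
      fun x _ => hcon x
    have h4 := (Finset.card_le_card h3).trans ((Finset.card_insert_le _ _).trans
      (Nat.add_le_add_right (hβ p1) 1))
    rw [Finset.card_univ, Fintype.card_fin] at h4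
    omega
  rw [Finset.mem_insert, not_or, Finset.mem_filter] at hp2
  have hp12 : ¬ β.Adj p1 p2 := fun h => hp2.2 ⟨Finset.mem_univ _, h⟩
  set W : Finset (Fin n) := univ.filter (fun z => β.Adj p1 z) ∪ univ.filter (fun z => β.Adj p2 z)
    with hW
  have hWc : W.card ≤ 2 * r := by
    have := Finset.card_union_le (univ.filter (fun z => β.Adj p1 z))
      (univ.filter (fun z => β.Adj p2 z))
    have h3 := hβ p1
    have h4 := hβ p2
    rw [← hW] at this
    omega
  have hWs : W ⊆ (univ.erase p1).erase p2 := by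
    intro x hx
    rw [hW, Finset.mem_union, Finset.mem_filter, Finset.mem_filter] at hx
    rw [Finset.mem_erase, Finset.mem_erase]
    refine ⟨?_, ?_, Finset.mem_univ _⟩
    · rintro rfl
      rcases hx with hx | hx
      · exact hp12 hx.2
      · exact β.loopless.irrefl _ hx.2
    · intro hxp
      rw [hxp] at hx
      rcases hx with hx | hx
      · exact β.loopless.irrefl _ hx.2
      · exact hp12 hx.2.symm
  have hbig : 2 * r ≤ ((univ.erase p1).erase p2).card := by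
    rw [Finset.card_erase_of_mem, Finset.card_erase_of_mem (Finset.mem_univ _), Finset.card_univ,
      Fintype.card_fin]
    · omega
    · rw [Finset.mem_erase]
      exact ⟨hp2.1, Finset.mem_univ _⟩
  obtain ⟨W', hW1, hW2, hW3⟩ := Finset.exists_subsuperset_card_eq hWs hWc hbig
  have e : Ψ ≃ W' := Finset.equivOfCardEq (by rw [hc, hW3])
  have hW1' : p1 ∉ W' := by
    intro h
    have := hW2 h
    rw [Finset.mem_erase, Finset.mem_erase] at this
    exact this.2.1 rfl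
  have hW2' : p2 ∉ W' := by
    intro h
    have := hW2 h
    rw [Finset.mem_erase] at this
    exact this.1 rfl
  let π : Fin n → Fin n := fun v =>
    if h : v ∈ Ψ then (e ⟨v, h⟩ : Fin n) else if v = y2 then p2 else p1
  have e1 : ∀ v (h : v ∈ Ψ), π v = e ⟨v, h⟩ := fun v h => dif_pos h
  have e2 : π y2 = p2 := by
    show (if h : y2 ∈ Ψ then (e ⟨y2, h⟩ : Fin n) else if y2 = y2 then p2 else p1) = p2
    rw [dif_neg h2, if_pos rfl]
  have e3 : π y1 = p1 := by
    show (if h : y1 ∈ Ψ then (e ⟨y1, h⟩ : Fin n) else if y1 = y2 then p2 else p1) = p1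
    rw [dif_neg h1, if_neg hy]
  have hmem : ∀ v (h : v ∈ Ψ), π v ∈ W' := fun v h => by
    rw [e1 v h]
    exact (e ⟨v, h⟩).2
  refine ⟨π, ⟨?_, ?_⟩, ?_⟩
  · intro x hx w hw hxw
    rw [Finset.coe_insert, Finset.coe_insert, Set.mem_insert_iff, Set.mem_insert_iff,
      Finset.mem_coe] at hx hw
    rcases hx with rfl | rfl | hx
    · rcases hw with rfl | rfl | hw
      · rfl
      · rw [e3, e2] at hxw
        exact absurd hxw.symm hp2.1
      · rw [e3] at hxw
        exact absurd (by rw [hxw]; exact hmem w hw) hW1'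
    · rcases hw with rfl | rfl | hw
      · rw [e3, e2] at hxw
        exact absurd hxw hp2.1
      · rfl
      · rw [e2] at hxw
        exact absurd (by rw [hxw]; exact hmem w hw) hW2'
    · rcases hw with rfl | rfl | hw
      · rw [e3] at hxw
        exact absurd (by rw [← hxw]; exact hmem x hx) hW1'
      · rw [e2] at hxw
        exact absurd (by rw [← hxw]; exact hmem x hx) hW2'
      · rw [e1 x hx, e1 w hw] at hxw
        exact Subtype.ext_iff.1 (e.injective (Subtype.ext hxw))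
  · intro x hx w hw hxw
    rw [Finset.mem_insert, Finset.mem_insert] at hx hw
    rcases hx with rfl | rfl | hx
    · rcases hw with rfl | rfl | hw
      · exact absurd hxw (H.loopless.irrefl _)
      · rw [e3, e2]
        exact hp12
      · exact absurd hxw.symm (hi1 w hw)
    · rcases hw with rfl | rfl | hw
      · rw [e3, e2]
        exact fun h => hp12 h.symm
      · exact absurd hxw (H.loopless.irrefl _)
      · exact absurd hxw.symm (hi2 w hw)
    · rcases hw with rfl | rfl | hw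
      · exact absurd hxw (hi1 x hx)
      · exact absurd hxw (hi2 x hx)
      · exact absurd hxw (hi x hx w hw)
  · intro x hx p hp
    have hpW : p ∈ W := by
      rw [Finset.mem_insert, Finset.mem_singleton] at hx
      rw [hW, Finset.mem_union, Finset.mem_filter, Finset.mem_filter]
      rcases hx with rfl | rfl
      · rw [e3] at hp
        exact Or.inl ⟨Finset.mem_univ _, hp⟩
      · rw [e2] at hp
        exact Or.inr ⟨Finset.mem_univ _, hp⟩
    rw [Finset.mem_image]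
    refine ⟨e.symm ⟨p, hW1 hpW⟩, ?_, ?_⟩
    · rw [Finset.mem_insert, Finset.mem_insert]
      exact Or.inr (Or.inr (e.symm ⟨p, hW1 hpW⟩).2)
    · rw [e1 _ (e.symm ⟨p, hW1 hpW⟩).2]
      simp

/-- The packing lemma for a graph with `2 r` branches at two vertices. -/
theorem pack {n a r : ℕ} {H β : SimpleGraph (Fin n)} [DecidableRel H.Adj] [DecidableRel β.Adj]
    (ha : 1 ≤ a) {y1 y2 : Fin n} (hy : y1 ≠ y2)
    (hβ : ∀ x, (univ.filter (fun z => β.Adj x z)).card ≤ r)
    (f : Fin n → ℕ) (hf : Function.Injective f)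
    (hback : ∀ v, (univ.filter (fun u => H.Adj v u ∧ f u < f v)).card ≤ a)
    {K : Type} [Fintype K] (hK : Fintype.card K = 2 * r)
    (B : K → Finset (Fin n)) (hB1 : ∀ k, y1 ∉ B k) (hB2 : ∀ k, y2 ∉ B k)
    (hBd : ∀ k l, ∀ v ∈ B k, v ∈ B l → k = l)
    (hBc : ∀ k, ∀ v ∈ B k, ∀ w, H.Adj v w → w ∉ B k → w = y1 ∨ w = y2)
    (L : K → Finset (Fin n)) (hLB : ∀ k, L k ⊆ B k) (hLc : ∀ k, (L k).card = a)
    (hLi : ∀ k, ∀ u ∈ L k, ∀ v ∈ L k, ¬ H.Adj u v)
    (hLd : ∀ k, ∀ v ∈ L k, (univ.filter (fun u => H.Adj v u ∧ u ≠ y1 ∧ u ≠ y2)).card ≤ a)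
    (ψ : K → Fin n) (hψB : ∀ k, ψ k ∈ B k) (hψL : ∀ k, ψ k ∉ L k)
    (hψ1 : ∀ k, ¬ H.Adj (ψ k) y1) (hψ2 : ∀ k, ¬ H.Adj (ψ k) y2) :
    ∃ π : Equiv.Perm (Fin n), ∀ u v, H.Adj u v → ¬ β.Adj (π u) (π v) := by
  classical
  have hψi : Function.Injective ψ := fun k l h => hBd k l _ (hψB k) (by rw [h]; exact hψB l)
  have hnb : ∀ k, ∀ u ∈ B k, ∀ v, H.Adj v u → v ≠ y1 → v ≠ y2 → v ∈ B k := by
    intro k u hu v hvu h1 h2
    by_contra hcon
    rcases hBc k u hu v hvu.symm hcon with h | h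
    · exact h1 h
    · exact h2 h
  have hψne1 : ∀ k, ψ k ≠ y1 := fun k h => hB1 k (by rw [← h]; exact hψB k)
  have hψne2 : ∀ k, ψ k ≠ y2 := fun k h => hB2 k (by rw [← h]; exact hψB k)
  set Ψ : Finset (Fin n) := univ.image ψ with hΨ
  have hmΨ : ∀ v, v ∈ Ψ ↔ ∃ k, ψ k = v := by
    intro v
    rw [hΨ, Finset.mem_image]
    exact ⟨fun ⟨k, _, h⟩ => ⟨k, h⟩, fun ⟨k, h⟩ => ⟨k, Finset.mem_univ _, h⟩⟩
  have hΨc : Ψ.card = 2 * r := by
    rw [hΨ, Finset.card_image_of_injective _ hψi, Finset.card_univ, hK]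
  have hΨi : ∀ u ∈ Ψ, ∀ v ∈ Ψ, ¬ H.Adj u v := by
    intro u hu v hv huv
    rw [hmΨ] at hu hv
    obtain ⟨k, rfl⟩ := hu
    obtain ⟨l, rfl⟩ := hv
    have h1 := hnb l _ (hψB l) _ huv (hψne1 k) (hψne2 k)
    have h2 := hBd k l _ (hψB k) h1
    subst h2
    exact H.loopless.irrefl _ huv
  obtain ⟨π, hg, hX⟩ := start (H := H) hy Ψ (by rw [hmΨ]; rintro ⟨k, h⟩; exact hψne1 k h)
    (by rw [hmΨ]; rintro ⟨k, h⟩; exact hψne2 k h) hΨc hΨi
    (by intro u hu; rw [hmΨ] at hu; obtain ⟨k, rfl⟩ := hu; exact hψ1 k)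
    (by intro u hu; rw [hmΨ] at hu; obtain ⟨k, rfl⟩ := hu; exact hψ2 k) hβ
  set X : Finset (Fin n) := {y1, y2} with hXd
  have hmX : ∀ v, v ∉ X ↔ v ≠ y1 ∧ v ≠ y2 := by
    intro v
    rw [hXd, Finset.mem_insert, Finset.mem_singleton, not_or]
  set Λ : Finset (Fin n) := univ.biUnion L with hΛ
  have hmΛ : ∀ v, v ∈ Λ ↔ ∃ k, v ∈ L k := by
    intro v
    rw [hΛ, Finset.mem_biUnion]
    exact ⟨fun ⟨k, _, h⟩ => ⟨k, h⟩, fun ⟨k, h⟩ => ⟨k, Finset.mem_univ _, h⟩⟩
  have hΛc : Λ.card = 2 * (r * a) := by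
    rw [hΛ, Finset.card_biUnion]
    · rw [Finset.sum_congr rfl fun k _ => hLc k, Finset.sum_const, Finset.card_univ, hK,
        smul_eq_mul, Nat.mul_assoc]
    · intro k _ l _ hkl
      show Disjoint (L k) (L l)
      rw [Finset.disjoint_left]
      intro v hv hv'
      exact hkl (hBd k l v (hLB k hv) (hLB l hv'))
  set S : Finset (Fin n) := insert y1 (insert y2 Ψ) with hS
  have hmS : ∀ v, v ∈ S ↔ v = y1 ∨ v = y2 ∨ v ∈ Ψ := by
    intro v
    rw [hS, Finset.mem_insert, Finset.mem_insert]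
  have hXS : X ⊆ S := by
    intro v hv
    rw [hXd, Finset.mem_insert, Finset.mem_singleton] at hv
    rw [hmS]
    rcases hv with h | h
    · exact Or.inl h
    · exact Or.inr (Or.inl h)
  have hΛS : Disjoint Λ S := by
    rw [Finset.disjoint_left]
    intro v hv hvS
    rw [hmΛ] at hv
    obtain ⟨k, hk⟩ := hv
    rw [hmS, hmΨ] at hvS
    rcases hvS with rfl | rfl | ⟨l, rfl⟩
    · exact hB1 k (hLB k hk)
    · exact hB2 k (hLB k hk)
    · have h1 := hBd k l _ (hLB k hk) (hψB l)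
      subst h1
      exact hψL k hk
  have hS1 : ∀ v, v ∉ S → v ∉ Λ → (S.filter (fun u => H.Adj v u ∧ u ∉ X)).card ≤ 1 := by
    intro v hv _
    rw [hmS, not_or, not_or] at hv
    rw [Finset.card_le_one]
    intro x hx w hw
    rw [Finset.mem_filter, hmS, hmX] at hx hw
    obtain ⟨hx1, hx2, hx3, hx4⟩ := hx
    obtain ⟨hw1, hw2, hw3, hw4⟩ := hw
    have hx5 : x ∈ Ψ := by
      rcases hx1 with h | h | h
      · exact absurd h hx3
      · exact absurd h hx4
      · exact h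
    have hw5 : w ∈ Ψ := by
      rcases hw1 with h | h | h
      · exact absurd h hw3
      · exact absurd h hw4
      · exact h
    rw [hmΨ] at hx5 hw5
    obtain ⟨k, rfl⟩ := hx5
    obtain ⟨l, rfl⟩ := hw5
    have h1 := hnb k _ (hψB k) _ hx2 hv.1 hv.2.1
    have h2 := hnb l _ (hψB l) _ hw2 hv.1 hv.2.1
    rw [hBd k l _ h1 h2]
  have hlt : (a + 1) * r < Λ.card + 1 := by
    rw [hΛc]
    have h1 : r ≤ r * a := Nat.le_mul_of_pos_right r ha
    have h2 : (a + 1) * r = r * a + r := by ring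
    omega
  obtain ⟨π', hg', hπ'⟩ := greedy hg X hXS hX hβ f hf hback Λ hΛS hlt hS1
  refine finish hg' X ?_ ?_ hβ hΛc ?_ ?_ ?_
  · rw [Finset.disjoint_left]
    intro v hv hv'
    exact (Finset.disjoint_left.1 hΛS) hv' (hXS hv)
  · intro x hx p hp
    rw [hπ' x (hXS hx)] at hp
    obtain ⟨w, hw, hwp⟩ := Finset.mem_image.1 (hX x hx p hp)
    refine Finset.mem_image.2 ⟨w, ?_, by rw [hπ' w hw]; exact hwp⟩
    rw [Finset.mem_sdiff]
    exact ⟨Finset.mem_univ _, fun h => (Finset.disjoint_left.1 hΛS) h hw⟩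
  · intro u hu v hv huv
    rw [hmΛ] at hu hv
    obtain ⟨k, hk⟩ := hu
    obtain ⟨l, hl⟩ := hv
    have h1 : u ≠ y1 := fun h => hB1 k (by rw [← h]; exact hLB k hk)
    have h2 : u ≠ y2 := fun h => hB2 k (by rw [← h]; exact hLB k hk)
    have h3 := hnb l _ (hLB l hl) _ huv h1 h2
    have h4 := hBd k l _ (hLB k hk) h3
    subst h4
    exact hLi k u hk v hl huv
  · intro v hv
    rw [hmΛ] at hv
    obtain ⟨k, hk⟩ := hv
    refine (Finset.card_le_card ?_).trans (hLd k v hk)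
    intro u hu
    rw [Finset.mem_filter, hmX] at hu
    rw [Finset.mem_filter]
    exact hu
  · intro v hv
    rw [hmX] at hv
    by_cases hex : ∃ k, v ∈ B k
    · obtain ⟨k, hk⟩ := hex
      refine (Finset.card_le_card ?_).trans (hLc k).le
      intro u hu
      rw [Finset.mem_filter, hmΛ] at hu
      obtain ⟨⟨l, hl⟩, hvu⟩ := hu
      have h1 := hnb l _ (hLB l hl) _ hvu hv.1 hv.2
      rw [hBd k l _ hk h1]
      exact hl
    · rw [Finset.filter_false_of_mem]
      · simp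
      · intro u hu hvu
        rw [hmΛ] at hu
        obtain ⟨l, hl⟩ := hu
        exact hex ⟨l, hnb l _ (hLB l hl) _ hvu hv.1 hv.2⟩

end MP3240P
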