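import Pool.Agent.Lib.MP_3240be_co.P32.Pack
import Pool.Agent.Lib.MP_3240be_co.P32.Gate

set_option autoImplicit false

/-!
# MP_3240be_co, P32: row PCK, the packing lemma (P) (helper32)

A connected bipartite graph on `n` vertices all of whose blocks have at most `a` vertices in the
smaller class, with two vertices each of which lies in `r + 1` blocks with exactly `a` vertices in
the smaller class, packs with every graph on `n` vertices with maximum degree at most `r`.
-/

namespace MP3240P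

open SimpleGraph Finset
open MP3240L (Two MxTwo Cl IsBlock small isBlock_mx mx_isBlock)

/-- The set `C` of `a` vertices of the block, and a further vertex `ψ`. -/
theorem choose_class {n a : ℕ} {H : SimpleGraph (Fin n)} [DecidableRel H.Adj]
    {κ : Fin n → Bool} (hκ : ∀ i j, H.Adj i j → κ i ≠ κ j) (ha : 2 ≤ a)
    {E : Finset (Fin n)} {y : Fin n} (hy : y ∈ E) (hle : small κ E ≤ a) (hge : a ≤ small κ E) :
    ∃ (C : Finset (Fin n)) (ψ : Fin n) (s : Bool), C ⊆ E ∧ y ∉ C ∧ C.card = a ∧
      (∀ c ∈ C, κ c = s) ∧ ψ ∈ E ∧ ψ ≠ y ∧ ψ ∉ C ∧ κ ψ = κ y ∧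
      ∀ c ∈ C, (E.filter (fun u => H.Adj c u ∧ u ≠ y)).card ≤ a := by
  classical
  have hg : ∀ s : Bool, a ≤ (E.filter (fun v => κ v = s)).card := by
    intro s
    unfold small at hge
    rw [le_min_iff] at hge
    cases s
    · exact hge.2
    · exact hge.1
  have hl : ∃ s : Bool, (E.filter (fun v => κ v = s)).card ≤ a := by
    unfold small at hle
    rcases min_le_iff.1 hle with h | h
    · exact ⟨true, h⟩
    · exact ⟨false, h⟩
  have hcol : ∀ i j, H.Adj i j → κ j = !κ i := by
    intro i j hij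
    have := hκ i j hij
    revert this
    cases κ i <;> cases κ j <;> simp
  have hym : y ∈ E.filter (fun v => κ v = κ y) := Finset.mem_filter.2 ⟨hy, rfl⟩
  by_cases hbig : (E.filter (fun v => κ v = κ y)).card ≤ a + 1
  · -- the class not containing `y`
    obtain ⟨C, hC1, hC2⟩ := Finset.exists_subset_card_eq (hg (!κ y))
    have hCm : ∀ c ∈ C, c ∈ E ∧ κ c = !κ y := fun c hc => Finset.mem_filter.1 (hC1 hc)
    obtain ⟨ψ, hψ1, hψ2⟩ : ∃ ψ ∈ E.filter (fun v => κ v = κ y), ψ ≠ y := by
      have h1 : 1 < (E.filter (fun v => κ v = κ y)).card := by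
        have := hg (κ y)
        omega
      exact Finset.exists_mem_ne h1 y
    rw [Finset.mem_filter] at hψ1
    refine ⟨C, ψ, !κ y, fun c hc => (hCm c hc).1, ?_, hC2, fun c hc => (hCm c hc).2, hψ1.1, hψ2,
      ?_, hψ1.2, ?_⟩
    · intro h
      have := (hCm y h).2
      revert this
      cases κ y <;> simp
    · intro h
      have h1 := (hCm ψ h).2
      rw [hψ1.2] at h1
      revert h1
      cases κ y <;> simp
    · intro c hc
      have h1 : E.filter (fun u => H.Adj c u ∧ u ≠ y) ⊆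
          (E.filter (fun v => κ v = κ y)).erase y := by
        intro u hu
        rw [Finset.mem_filter] at hu
        rw [Finset.mem_erase, Finset.mem_filter]
        refine ⟨hu.2.2, hu.1, ?_⟩
        rw [hcol c u hu.2.1, (hCm c hc).2, Bool.not_not]
      have h2 := Finset.card_le_card h1
      rw [Finset.card_erase_of_mem hym] at h2
      omega
  · -- the class containing `y`
    push Not at hbig
    obtain ⟨s, hs⟩ := hl
    have hsy : s = !κ y := by
      by_contra hcon
      have h1 : s = κ y := by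
        revert hcon
        cases s <;> cases κ y <;> simp
      rw [h1] at hs
      omega
    have h0 : a ≤ ((E.filter (fun v => κ v = κ y)).erase y).card := by
      rw [Finset.card_erase_of_mem hym]
      omega
    obtain ⟨C, hC1, hC2⟩ := Finset.exists_subset_card_eq h0
    have hCm : ∀ c ∈ C, c ≠ y ∧ c ∈ E ∧ κ c = κ y := by
      intro c hc
      have h1 := hC1 hc
      rw [Finset.mem_erase, Finset.mem_filter] at h1
      exact h1
    obtain ⟨ψ, hψ1, hψ2⟩ : ∃ ψ ∈ (E.filter (fun v => κ v = κ y)).erase y, ψ ∉ C := by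
      refine Finset.exists_mem_notMem_of_card_lt_card ?_
      rw [hC2, Finset.card_erase_of_mem hym]
      omega
    rw [Finset.mem_erase, Finset.mem_filter] at hψ1
    refine ⟨C, ψ, κ y, fun c hc => (hCm c hc).2.1, fun h => (hCm y h).1 rfl, hC2,
      fun c hc => (hCm c hc).2.2, hψ1.2.1, hψ1.1, hψ2, hψ1.2.2, ?_⟩
    intro c hc
    refine (Finset.card_le_card ?_).trans hs
    intro u hu
    rw [Finset.mem_filter] at hu ⊢
    refine ⟨hu.1, ?_⟩
    rw [hcol c u hu.2.1, (hCm c hc).2.2, hsy]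

/-- The independent set and the further vertex of a branch. -/
theorem branch {n a : ℕ} {H : SimpleGraph (Fin n)} [DecidableRel H.Adj] {κ : Fin n → Bool}
    (hκ : ∀ i j, H.Adj i j → κ i ≠ κ j) (ha : 2 ≤ a)
    (hord : ∀ x0 : Fin n, ∃ f : Fin n → ℕ, Function.Injective f ∧ (∀ v, f x0 ≤ f v) ∧
      ∀ v, (univ.filter (fun u => H.Adj v u ∧ f u < f v)).card ≤ a)
    {E : Finset (Fin n)} {y y' : Fin n} (hy : y ∈ E)
    (hle : small κ E ≤ a) (hge : a ≤ small κ E)
    {g : Fin n → Fin n} (hg0 : ∀ v ∈ E, g v = v)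
    (hg : ∀ v w, H.Adj v w → g v = g w ∨ (v ∈ E ∧ w ∈ E)) (hyy : g y' = y) :
    ∃ (L : Finset (Fin n)) (ψ : Fin n), (∀ v ∈ L, g v ≠ y) ∧ L.card = a ∧
      (∀ u ∈ L, ∀ v ∈ L, ¬ H.Adj u v) ∧
      (∀ v ∈ L, (univ.filter (fun u => H.Adj v u ∧ u ≠ y ∧ u ≠ y')).card ≤ a) ∧
      g ψ ≠ y ∧ ψ ∉ L ∧ ¬ H.Adj ψ y ∧ ¬ H.Adj ψ y' := by
  classical
  obtain ⟨C, ψ, s, hCE, hyC, hCc, hCs, hψE, hψy, hψC, hψκ, hCd⟩ :=
    choose_class hκ ha hy hle hge
  have hlam : ∀ c : Fin n, ∃ v, c ∈ C → g v = c ∧ (v = c ∨ v ∉ E) ∧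
      (univ.filter (fun u => H.Adj v u ∧ u ≠ y ∧ u ≠ y')).card ≤ a := by
    intro c
    by_cases hc : c ∈ C
    · have hcE := hCE hc
      by_cases hex : ∃ v, v ≠ c ∧ g v = c
      · obtain ⟨f, hf, hf0, hfb⟩ := hord c
        -- the last vertex
        have hne : (univ.filter (fun v => v ≠ c ∧ g v = c)).Nonempty := by
          obtain ⟨v, hv⟩ := hex
          exact ⟨v, Finset.mem_filter.2 ⟨Finset.mem_univ _, hv⟩⟩
        obtain ⟨v, hv, hmax⟩ := Finset.exists_max_image _ f hne
        rw [Finset.mem_filter] at hv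
        have hvE : v ∉ E := fun h => hv.2.1 ((hg0 v h).symm.trans hv.2.2)
        refine ⟨v, fun _ => ⟨hv.2.2, Or.inr hvE, ?_⟩⟩
        refine (Finset.card_le_card ?_).trans (hfb v)
        intro u hu
        rw [Finset.mem_filter] at hu ⊢
        refine ⟨hu.1, hu.2.1, ?_⟩
        have h1 : g u = c := by
          rcases hg v u hu.2.1 with h | h
          · rw [← h]
            exact hv.2.2
          · exact absurd h.1 hvE
        have h2 : f u ≠ f v := fun h => hu.2.1.ne (hf h).symm
        by_cases huc : u = c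
        · have h3 := hf0 v
          rw [← huc] at h3
          omega
        · have h3 := hmax u (Finset.mem_filter.2 ⟨Finset.mem_univ _, huc, h1⟩)
          omega
      · refine ⟨c, fun _ => ⟨hg0 c hcE, Or.inl rfl, ?_⟩⟩
        refine (Finset.card_le_card ?_).trans (hCd c hc)
        intro u hu
        rw [Finset.mem_filter] at hu ⊢
        refine ⟨?_, hu.2.1, hu.2.2.1⟩
        rcases hg c u hu.2.1 with h | h
        · rw [hg0 c hcE] at h
          exact absurd ⟨u, hu.2.1.ne.symm, h.symm⟩ hex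
        · exact h.2
    · exact ⟨c, fun h => absurd h hc⟩
  choose lam hlam using hlam
  have hinj : Set.InjOn lam (C : Set (Fin n)) := by
    intro c hc d hd h
    rw [Finset.mem_coe] at hc hd
    rw [← (hlam c hc).1, ← (hlam d hd).1, h]
  refine ⟨C.image lam, ψ, ?_, ?_, ?_, ?_, ?_, ?_, ?_, ?_⟩
  · intro v hv
    obtain ⟨c, hc, rfl⟩ := Finset.mem_image.1 hv
    rw [(hlam c hc).1]
    rintro rfl
    exact hyC hc
  · rw [Finset.card_image_of_injOn hinj, hCc]
  · intro u hu v hv huv
    obtain ⟨c, hc, rfl⟩ := Finset.mem_image.1 hu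
    obtain ⟨d, hd, rfl⟩ := Finset.mem_image.1 hv
    have h1 := hlam c hc
    have h2 := hlam d hd
    rcases hg _ _ huv with h | h
    · rw [h1.1, h2.1] at h
      subst h
      exact H.loopless.irrefl _ huv
    · have h3 : lam c = c := h1.2.1.resolve_right (fun h' => h' h.1)
      have h4 : lam d = d := h2.2.1.resolve_right (fun h' => h' h.2)
      rw [h3, h4] at huv
      exact hκ _ _ huv ((hCs c hc).trans (hCs d hd).symm)
  · intro v hv
    obtain ⟨c, hc, rfl⟩ := Finset.mem_image.1 hv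
    exact (hlam c hc).2.2
  · rw [hg0 ψ hψE]
    exact hψy
  · intro h
    obtain ⟨c, hc, hcψ⟩ := Finset.mem_image.1 h
    have h1 := (hlam c hc).1
    rw [hcψ, hg0 ψ hψE] at h1
    rw [h1] at hψC
    exact hψC hc
  · exact fun h => hκ _ _ h hψκ
  · intro h
    rcases hg _ _ h with h1 | h1
    · rw [hg0 ψ hψE, hyy] at h1
      exact hψy h1
    · rw [hg0 y' h1.2] at hyy
      rw [hyy] at h
      exact hκ _ _ h hψκ

/-- Among `r + 1` blocks at `y`, `r` are not in the direction of `y'`. -/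
theorem choose_blocks {n r : ℕ} {H : SimpleGraph (Fin n)} (hH : H.Connected)
    {y y' : Fin n} (hyy : y ≠ y') (E : Fin (r + 1) → Finset (Fin n))
    (hEi : Function.Injective E) (hE : ∀ i, MxTwo H (E i : Set (Fin n))) (hyE : ∀ i, y ∈ E i)
    (g : Fin (r + 1) → Fin n → Fin n) (hg0 : ∀ i, ∀ v ∈ E i, g i v = v)
    (hg : ∀ i, ∀ v w, H.Adj v w → g i v = g i w ∨ (v ∈ E i ∧ w ∈ E i)) :
    ∃ e : Fin r → Fin (r + 1), Function.Injective e ∧ ∀ i, g (e i) y' = y := by
  classical
  have hdis : ∀ i j, g i y' ≠ y → g j y' ≠ y → i = j := by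
    intro i j hi hj
    by_contra hij
    have hne : (E i : Set (Fin n)) ≠ (E j : Set (Fin n)) := fun h =>
      hij (hEi (Finset.coe_injective h))
    have h1 : ∀ v ∈ (E j : Set (Fin n)), g i v = y := by
      intro v hv
      rw [gate_const (hE i) (hE j) hne (g := g i)
        (fun v w h => by simpa using hg i v w h) hv (Finset.mem_coe.2 (hyE j)), hg0 i y (hyE i)]
    have h2 : ∀ v ∈ (E i : Set (Fin n)), g j v = y := by
      intro v hv
      rw [gate_const (hE j) (hE i) hne.symm (g := g j)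
        (fun v w h => by simpa using hg j v w h) hv (Finset.mem_coe.2 (hyE i)), hg0 j y (hyE j)]
    rcases gate_disj hH (E := (E i : Set (Fin n))) (E' := (E j : Set (Fin n)))
      (g := g i) (g' := g j) (y := y) (y' := y)
      (fun v hv => hg0 i v (Finset.mem_coe.1 hv)) (fun v hv => hg0 j v (Finset.mem_coe.1 hv))
      (fun v w h => by simpa using hg i v w h) (fun v w h => by simpa using hg j v w h)
      (Finset.mem_coe.2 (hyE i)) h1 h2 y' with h | h
    · exact hi h
    · exact hj h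
  by_cases hex : ∃ i, g i y' ≠ y
  · obtain ⟨i, hi⟩ := hex
    refine ⟨i.succAbove, Fin.succAbove_right_injective, ?_⟩
    intro j
    by_contra hj
    exact Fin.succAbove_ne i j (hdis _ _ hj hi)
  · push Not at hex
    exact ⟨Fin.castSucc, Fin.castSucc_injective _, fun i => hex _⟩

/-- Row PCK: the packing lemma. -/
theorem packing {n a r : ℕ} {H : SimpleGraph (Fin n)} {κ : Fin n → Bool} (hH : H.Connected)
    (hκ : ∀ i j, H.Adj i j → κ i ≠ κ j) (ha : 2 ≤ a)
    (hsm : ∀ S, IsBlock H S → small κ S ≤ a) {y1 y2 : Fin n} (hy : y1 ≠ y2)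
    (h1 : ∃ E : Fin (r + 1) → Finset (Fin n), Function.Injective E ∧
      ∀ i, IsBlock H (E i) ∧ y1 ∈ E i ∧ a ≤ small κ (E i))
    (h2 : ∃ E : Fin (r + 1) → Finset (Fin n), Function.Injective E ∧
      ∀ i, IsBlock H (E i) ∧ y2 ∈ E i ∧ a ≤ small κ (E i))
    (β : SimpleGraph (Fin n)) (hβ : ∀ x, {z | β.Adj x z}.ncard ≤ r) :
    ∃ π : Equiv.Perm (Fin n), ∀ u v, H.Adj u v → ¬ β.Adj (π u) (π v) := by
  classical
  have hβ' : ∀ x, (univ.filter (fun z => β.Adj x z)).card ≤ r := by
    intro x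
    rw [← Set.ncard_coe_finset, Finset.coe_filter]
    simpa using hβ x
  -- the orders
  have hsm' : ∀ S : Set (Fin n), MxTwo H S → ∃ s : Bool, {v | v ∈ S ∧ κ v = s}.ncard ≤ a := by
    intro S hS
    have hSS : (S.toFinset : Set (Fin n)) = S := Set.coe_toFinset S
    have hcard : ∀ s, {v | v ∈ S ∧ κ v = s}.ncard =
        (S.toFinset.filter (fun v => κ v = s)).card := by
      intro s
      rw [← Set.ncard_coe_finset, Finset.coe_filter]
      congr 1
      ext v
      simp
    by_cases h3 : 3 ≤ S.toFinset.card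
    · have h4 := hsm _ (mx_isBlock (H := H) (S := S.toFinset) (by rw [hSS]; exact hS) h3)
      unfold small at h4
      rcases min_le_iff.1 h4 with h | h
      · exact ⟨true, by rw [hcard]; exact h⟩
      · exact ⟨false, by rw [hcard]; exact h⟩
    · refine ⟨true, ?_⟩
      rw [hcard]
      refine (Finset.card_filter_le _ _).trans ?_
      omega
  have hord := exists_order hH hκ (le_trans (by norm_num) ha) hsm'
  -- the blocks at one point
  have side : ∀ y y' : Fin n, y ≠ y' → (∃ E : Fin (r + 1) → Finset (Fin n),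
      Function.Injective E ∧ ∀ i, IsBlock H (E i) ∧ y ∈ E i ∧ a ≤ small κ (E i)) →
      ∃ (E : Fin r → Finset (Fin n)) (g : Fin r → Fin n → Fin n), Function.Injective E ∧
        (∀ i, IsBlock H (E i) ∧ y ∈ E i ∧ a ≤ small κ (E i)) ∧
        (∀ i, ∀ v ∈ E i, g i v = v) ∧
        (∀ i, ∀ v w, H.Adj v w → g i v = g i w ∨ (v ∈ E i ∧ w ∈ E i)) ∧ ∀ i, g i y' = y := by
    rintro y y' hyy ⟨E, hEi, hE⟩
    have hgate : ∀ i, ∃ g : Fin n → Fin n, (∀ v, g v ∈ (E i : Set (Fin n))) ∧
        (∀ v ∈ (E i : Set (Fin n)), g v = v) ∧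
        ∀ v w, H.Adj v w → g v = g w ∨ (v ∈ (E i : Set (Fin n)) ∧ w ∈ (E i : Set (Fin n))) :=
      fun i => exists_gate hH (isBlock_mx (hE i).1)
    choose g _ hg0 hg using hgate
    obtain ⟨e, he, hee⟩ := choose_blocks hH hyy E hEi (fun i => isBlock_mx (hE i).1)
      (fun i => (hE i).2.1) g (fun i v hv => hg0 i v (Finset.mem_coe.2 hv))
      (fun i v w h => by simpa using hg i v w h)
    exact ⟨fun i => E (e i), fun i => g (e i), hEi.comp he, fun i => hE (e i),
      fun i v hv => hg0 (e i) v (Finset.mem_coe.2 hv),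
      fun i v w h => by simpa using hg (e i) v w h, hee⟩
  obtain ⟨E1, g1, hE1i, hE1, hg10, hg1, hg1y⟩ := side y1 y2 hy h1
  obtain ⟨E2, g2, hE2i, hE2, hg20, hg2, hg2y⟩ := side y2 y1 hy.symm h2
  have b1 : ∀ i, _ := fun i => branch hκ ha hord (hE1 i).2.1 (hsm _ (hE1 i).1) (hE1 i).2.2
    (hg10 i) (hg1 i) (hg1y i)
  have b2 : ∀ i, _ := fun i => branch hκ ha hord (hE2 i).2.1 (hsm _ (hE2 i).1) (hE2 i).2.2
    (hg20 i) (hg2 i) (hg2y i)
  choose L1 ψ1 p1 p2 p3 p4 p5 p6 p7 p8 using b1
  choose L2 ψ2 q1 q2 q3 q4 q5 q6 q7 q8 using b2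
  obtain ⟨f, hf, _, hfb⟩ := hord y1
  -- the constant values of the gate maps
  have c11 : ∀ i j, i ≠ j → ∀ v ∈ (E1 j : Set (Fin n)), g1 i v = y1 := by
    intro i j hij v hv
    rw [gate_const (isBlock_mx (hE1 i).1) (isBlock_mx (hE1 j).1)
      (fun h => hij (hE1i (Finset.coe_injective h))) (g := g1 i)
      (fun v w h => by simpa using hg1 i v w h) hv (Finset.mem_coe.2 (hE1 j).2.1),
      hg10 i y1 (hE1 i).2.1]
  have c22 : ∀ i j, i ≠ j → ∀ v ∈ (E2 j : Set (Fin n)), g2 i v = y2 := by
    intro i j hij v hv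
    rw [gate_const (isBlock_mx (hE2 i).1) (isBlock_mx (hE2 j).1)
      (fun h => hij (hE2i (Finset.coe_injective h))) (g := g2 i)
      (fun v w h => by simpa using hg2 i v w h) hv (Finset.mem_coe.2 (hE2 j).2.1),
      hg20 i y2 (hE2 i).2.1]
  have hne12 : ∀ i j, (E1 i : Set (Fin n)) ≠ (E2 j : Set (Fin n)) := by
    intro i j h
    have h3 : y2 ∈ E1 i := by
      rw [← Finset.mem_coe, h, Finset.mem_coe]
      exact (hE2 j).2.1
    have h4 := hg10 i y2 h3
    rw [hg1y i] at h4
    exact hy h4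
  have c12 : ∀ i j, ∀ v ∈ (E2 j : Set (Fin n)), g1 i v = y1 := by
    intro i j v hv
    rw [gate_const (isBlock_mx (hE1 i).1) (isBlock_mx (hE2 j).1) (hne12 i j) (g := g1 i)
      (fun v w h => by simpa using hg1 i v w h) hv (Finset.mem_coe.2 (hE2 j).2.1), hg1y i]
  have c21 : ∀ i j, ∀ v ∈ (E1 j : Set (Fin n)), g2 i v = y2 := by
    intro i j v hv
    rw [gate_const (isBlock_mx (hE2 i).1) (isBlock_mx (hE1 j).1) (hne12 j i).symm (g := g2 i)
      (fun v w h => by simpa using hg2 i v w h) hv (Finset.mem_coe.2 (hE1 j).2.1), hg2y i]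
  -- the data
  let B : Fin r ⊕ Fin r → Finset (Fin n) := Sum.elim
    (fun i => univ.filter (fun v => g1 i v ≠ y1)) (fun i => univ.filter (fun v => g2 i v ≠ y2))
  have m1 : ∀ i v, v ∈ B (Sum.inl i) ↔ g1 i v ≠ y1 := by
    intro i v
    show v ∈ univ.filter (fun v => g1 i v ≠ y1) ↔ _
    simp
  have m2 : ∀ i v, v ∈ B (Sum.inr i) ↔ g2 i v ≠ y2 := by
    intro i v
    show v ∈ univ.filter (fun v => g2 i v ≠ y2) ↔ _
    simp
  refine pack (a := a) (r := r) (le_trans (by norm_num) ha) hy hβ' f hf hfb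
    (K := Fin r ⊕ Fin r) (by simp; ring) B ?_ ?_ ?_ ?_ (Sum.elim L1 L2) ?_ ?_ ?_ ?_
    (Sum.elim ψ1 ψ2) ?_ ?_ ?_ ?_
  · rintro (i | i)
    · rw [m1]
      exact fun h => h (hg10 i y1 (hE1 i).2.1)
    · rw [m2]
      exact fun h => h (hg2y i)
  · rintro (i | i)
    · rw [m1]
      exact fun h => h (hg1y i)
    · rw [m2]
      exact fun h => h (hg20 i y2 (hE2 i).2.1)
  · rintro (i | i) (j | j) v hv hv'
    · rw [m1] at hv hv'
      by_contra hij
      have hij' : i ≠ j := fun h => hij (by rw [h])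
      rcases gate_disj hH (E := (E1 i : Set (Fin n))) (E' := (E1 j : Set (Fin n)))
        (fun v hv => hg10 i v (Finset.mem_coe.1 hv)) (fun v hv => hg10 j v (Finset.mem_coe.1 hv))
        (fun v w h => by simpa using hg1 i v w h) (fun v w h => by simpa using hg1 j v w h)
        (Finset.mem_coe.2 (hE1 i).2.1) (c11 i j hij') (c11 j i hij'.symm) v with h | h
      · exact hv h
      · exact hv' h
    · rw [m1] at hv
      rw [m2] at hv'
      rcases gate_disj hH (E := (E1 i : Set (Fin n))) (E' := (E2 j : Set (Fin n)))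
        (fun v hv => hg10 i v (Finset.mem_coe.1 hv)) (fun v hv => hg20 j v (Finset.mem_coe.1 hv))
        (fun v w h => by simpa using hg1 i v w h) (fun v w h => by simpa using hg2 j v w h)
        (Finset.mem_coe.2 (hE1 i).2.1) (c12 i j) (c21 j i) v with h | h
      · exact absurd h hv
      · exact absurd h hv'
    · rw [m2] at hv
      rw [m1] at hv'
      rcases gate_disj hH (E := (E2 i : Set (Fin n))) (E' := (E1 j : Set (Fin n)))
        (fun v hv => hg20 i v (Finset.mem_coe.1 hv)) (fun v hv => hg10 j v (Finset.mem_coe.1 hv))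
        (fun v w h => by simpa using hg2 i v w h) (fun v w h => by simpa using hg1 j v w h)
        (Finset.mem_coe.2 (hE2 i).2.1) (c21 i j) (c12 j i) v with h | h
      · exact absurd h hv
      · exact absurd h hv'
    · rw [m2] at hv hv'
      by_contra hij
      have hij' : i ≠ j := fun h => hij (by rw [h])
      rcases gate_disj hH (E := (E2 i : Set (Fin n))) (E' := (E2 j : Set (Fin n)))
        (fun v hv => hg20 i v (Finset.mem_coe.1 hv)) (fun v hv => hg20 j v (Finset.mem_coe.1 hv))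
        (fun v w h => by simpa using hg2 i v w h) (fun v w h => by simpa using hg2 j v w h)
        (Finset.mem_coe.2 (hE2 i).2.1) (c22 i j hij') (c22 j i hij'.symm) v with h | h
      · exact hv h
      · exact hv' h
  · rintro (i | i) v hv w hvw hw
    · rw [m1] at hv
      rw [m1, not_not] at hw
      left
      rcases hg1 i v w hvw with h | h
      · exact absurd (h.trans hw) hv
      · rw [← hg10 i w h.2]
        exact hw
    · rw [m2] at hv
      rw [m2, not_not] at hw
      right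
      rcases hg2 i v w hvw with h | h
      · exact absurd (h.trans hw) hv
      · rw [← hg20 i w h.2]
        exact hw
  · rintro (i | i) v hv
    · rw [m1]
      exact p1 i v hv
    · rw [m2]
      exact q1 i v hv
  · rintro (i | i)
    · exact p2 i
    · exact q2 i
  · rintro (i | i)
    · exact p3 i
    · exact q3 i
  · rintro (i | i) v hv
    · exact p4 i v hv
    · refine (Finset.card_le_card ?_).trans (q4 i v hv)
      intro u hu
      rw [Finset.mem_filter] at hu ⊢
      exact ⟨hu.1, hu.2.1, hu.2.2.2, hu.2.2.1⟩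
  · rintro (i | i)
    · rw [m1]
      exact p5 i
    · rw [m2]
      exact q5 i
  · rintro (i | i)
    · exact p6 i
    · exact q6 i
  · rintro (i | i)
    · exact p7 i
    · exact q8 i
  · rintro (i | i)
    · exact p8 i
    · exact q7 i

end MP3240P
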